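import Pool.Agent.P.MP_8be758_nt.Sq.All

/-! The expected order of prime values for a positive proportion of `A ≤ K`, `K` below `√n`. -/

namespace Pool.Agent.Results.MP_8be758_nt.BelowSquareRoot

theorem result : ∃ θ : ℝ, θ < 1 / 2 ∧ ∃ c : ℝ, 0 < c ∧ ∃ n0 : ℕ, ∀ n : ℕ, n0 ≤ n → ∀ K : ℕ,
    (n : ℝ) ^ θ ≤ K → K ≤ n →
      c * K ≤ (((Finset.Icc 3 K).filter fun A : ℕ => Odd A ∧ c * n / Real.log n ≤
        (((Finset.range (n + 1)).filter fun x : ℕ => (x ^ 2 + x + A).Prime).card : ℝ)).card : ℝ) :=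
  Pool.Agent.P.MP_8be758_nt.Sq.b_FIN

end Pool.Agent.Results.MP_8be758_nt.BelowSquareRoot
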