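import Pool.Agent.P.MP_8be758_nt.L3.All

/-! The Bateman-Horn asymptotic for the prime values of `a x^2 + c` over `k[T]`, `k` any finite
field of characteristic two: uniformly in the field and in the coefficients, in short intervals. -/

namespace Pool.Agent.Results.MP_8be758_nt.CharTwoPrimesUniform

open Polynomial

theorem result (ε : ℝ) (hε : 0 < ε) : ∃ η : ℝ, 0 < η ∧ ∃ n0 : ℕ,
    ∀ (k : Type) [Field k] [Finite k] [CharP k 2] (a c g0 : k[X]) (n m : ℕ), a ≠ 0 →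
      Irreducible (C a * X ^ 2 + C c : k[X][X]) → n0 ≤ n → g0.natDegree = n →
      (a.natDegree : ℝ) ≤ η * n → (c.natDegree : ℝ) ≤ η * n → (1 - η) * n ≤ m → m ≤ n →
      |(Set.ncard {g : k[X] | (g - g0).degree < m ∧ Irreducible (a * g ^ 2 + c)} : ℝ) /
          ((Nat.card k : ℝ) ^ m / (2 * n + a.natDegree)) -
        ∏ᶠ P ∈ {P : k[X] | P.Monic ∧ Irreducible P ∧ P ∣ a},
          (1 - 1 / (Nat.card k : ℝ) ^ P.natDegree)⁻¹| ≤
      ε * ∏ᶠ P ∈ {P : k[X] | P.Monic ∧ Irreducible P ∧ P ∣ a},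
          (1 - 1 / (Nat.card k : ℝ) ^ P.natDegree)⁻¹ :=
  Pool.Agent.P.MP_8be758_nt.L3.last ε hε

end Pool.Agent.Results.MP_8be758_nt.CharTwoPrimesUniform
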