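import Pool.Agent.P.MP_8be758_nt.Av3.All

namespace Pool.Agent.Results.MP_8be758_nt.EightEleventhsAverage

open Filter Topology

/-- Conjecture F holds up to `n` for almost all odd `A ≤ K`, as soon as
`n ^ θ ≤ K ≤ n ^ (2 - δ)`, `θ > 8 / 11`. -/
theorem result : ∀ θ δ : ℝ, 8 / 11 < θ → 0 < δ → ∀ ε : ℝ, 0 < ε → ∃ n₀ : ℕ, ∀ n K : ℕ, n₀ ≤ n →
    (n : ℝ) ^ θ ≤ K → (K : ℝ) ≤ (n : ℝ) ^ (2 - δ) →
    (Set.ncard {A : ℕ | 3 ≤ A ∧ A ≤ K ∧ Odd A ∧ ¬ ∃ C : ℝ, 0 < C ∧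
      Tendsto (fun y : ℕ => ∏ p ∈ (Finset.Icc 3 y).filter Nat.Prime,
        (1 - (jacobiSym (1 - 4 * (A : ℤ)) p : ℝ) / ((p : ℝ) - 1))) atTop (𝓝 C) ∧
      |(((Finset.range (n + 1)).filter fun x => (x ^ 2 + x + A).Prime).card : ℝ) -
          C * (2 * ∫ x in (0 : ℝ)..n, 1 / Real.log (x ^ 2 + x + A))| ≤
        ε * (C * (2 * ∫ x in (0 : ℝ)..n, 1 / Real.log (x ^ 2 + x + A)))} : ℝ) ≤ ε * K :=
  fun θ δ hθ hδ => Pool.Agent.P.MP_8be758_nt.Av3.all_steps3 θ δ hθ hδ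

end Pool.Agent.Results.MP_8be758_nt.EightEleventhsAverage
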