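import Pool.Agent.P.MP_8be758_nt.Pd.GAll
import Pool.Agent.P.MP_8be758_nt.Pd.GFinal

namespace Pool.Agent.Results.MP_8be758_nt.SignMean

open Pool.Agent.P.MP_8be758_nt.Pd

/-- For every odd `A ≥ 3` and `θ < 1 / 2` there is `c > 0` such that, for all large `N`: the sum of
the Liouville function over the values `x ^ 2 + x + A`, `0 ≤ x ≤ N`, is at most `(1 - c) N` in
absolute value; and for every completely multiplicative sign function `f` the sum of `f` over these
values is at least `-(1 - c) N`, and at most `(1 - c) N` if `f p = -1` at the primes of `(N ^ θ, N]`. -/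
theorem result (A : ℕ) (hA : Odd A) (h3 : 3 ≤ A) (θ : ℝ) (hθ : θ < 1 / 2) :
    ∃ c : ℝ, 0 < c ∧ ∀ᶠ N : ℕ in Filter.atTop,
      |∑ x ∈ Finset.range (N + 1), (ArithmeticFunction.liouville (x ^ 2 + x + A) : ℝ)| ≤ (1 - c) * N ∧
      ∀ f : ℕ → ℤ, (∀ m n, m ≠ 0 → n ≠ 0 → f (m * n) = f m * f n) →
        (∀ n, n ≠ 0 → f n = 1 ∨ f n = -1) →
        -((1 - c) * N) ≤ ∑ x ∈ Finset.range (N + 1), (f (x ^ 2 + x + A) : ℝ) ∧
        ((∀ p : ℕ, p.Prime → (N : ℝ) ^ θ < p → p ≤ N → f p = -1) →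
          ∑ x ∈ Finset.range (N + 1), (f (x ^ 2 + x + A) : ℝ) ≤ (1 - c) * N) := by
  obtain ⟨c, hc, h⟩ := G.mean_of_top g_TRANSFER g_TRI g_TOP A hA h3 θ hθ
  refine ⟨c, hc, h.mono fun N hN => ⟨?_, hN⟩⟩
  obtain ⟨h1, h2⟩ := hN ArithmeticFunction.liouville
    (fun m n hm hn => by
      rw [ArithmeticFunction.liouville_apply (mul_ne_zero hm hn), ArithmeticFunction.liouville_apply hm,
        ArithmeticFunction.liouville_apply hn, ArithmeticFunction.cardFactors_mul hm hn, pow_add])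
    (fun n hn => by
      rw [ArithmeticFunction.liouville_apply hn]
      exact neg_one_pow_eq_or ℤ _)
  refine abs_le.2 ⟨h1, h2 fun p hp _ _ => ?_⟩
  rw [ArithmeticFunction.liouville_apply hp.ne_zero, ArithmeticFunction.cardFactors_apply_prime hp,
    pow_one]

end Pool.Agent.Results.MP_8be758_nt.SignMean
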